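import Pool.Agent.H64.Balls

/-!
# `k`-locally planar topological graphs have `O(n^{1+1/⌊k/2⌋})` edges
-/

set_option autoImplicit false

namespace Pool.Agent.Results.MP_d8337a_co.BallBound

open Pool.Agent.Helper234_Grid Pool.Agent.H64.LocalPlanar

/-- **Result.** For every `k ≥ 2` there is a constant `C` such that every `k`-locally planar
topological graph with `n` vertices, simple or not, has at most `C n^{1+1/⌊k/2⌋}` edges. -/
theorem result (k : ℕ) (hk : 2 ≤ k) : ∃ C : ℝ, ∀ (V : Type) [Fintype V]
    (D : TopologicalGraph V), LocallyPlanar D k →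
      (D.graph.edgeSet.ncard : ℝ) ≤
        C * (Fintype.card V : ℝ) ^ (1 + (1 : ℝ) / ((k / 2 : ℕ) : ℝ)) :=
  general k hk

end Pool.Agent.Results.MP_d8337a_co.BallBound
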