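import Pool.Agent.H64.LocalPlanar

/-!
# `k`-locally planar topological graphs, `k ≥ 4`, have `O(n^{10/7})` edges
-/

set_option autoImplicit false

namespace Pool.Agent.Results.MP_d8337a_co.FourLocal

open Pool.Agent.Helper234_Grid Pool.Agent.H64.LocalPlanar

theorem eStar_le (k n : ℕ) (hk : 4 ≤ k) :
    (eStar k n : ℝ) ≤ 10 ^ 4 * (n : ℝ) ^ ((10 : ℝ) / 7) := by
  set S : Set ℕ := {m : ℕ | ∃ D : TopologicalGraph (Fin n), Simple D ∧ LocallyPlanar D k ∧
    D.graph.edgeSet.ncard = m} with hS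
  have hbd : ∀ m ∈ S, (m : ℝ) ≤ 10 ^ 4 * (n : ℝ) ^ ((10 : ℝ) / 7) := by
    rintro m ⟨D, -, hD, rfl⟩
    have := bound D (hD.mono hk)
    rwa [Fintype.card_fin] at this
  rcases S.eq_empty_or_nonempty with h | h
  · have : eStar k n = 0 := by
      unfold eStar
      rw [← hS, h, csSup_empty]
      rfl
    rw [this]
    simp only [Nat.cast_zero]
    positivity
  · have hbdd : BddAbove S := by
      refine ⟨⌊(10 : ℝ) ^ 4 * (n : ℝ) ^ ((10 : ℝ) / 7)⌋₊, fun m hm => ?_⟩
      exact Nat.le_floor (hbd m hm)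
    exact hbd _ (Nat.sSup_mem h hbdd)

/-- **Result.** For every `k ≥ 4`, every `k`-locally planar topological graph with `n` vertices
(simple or not) has at most `10^4 n^{10/7}` edges; in particular `e*_k(n) = o(n^{3/2})` for every
`k ≥ 4`. -/
theorem result (k : ℕ) (hk : 4 ≤ k) :
    (∀ (V : Type) [Fintype V] (D : TopologicalGraph V), LocallyPlanar D k →
      (D.graph.edgeSet.ncard : ℝ) ≤ 10 ^ 4 * (Fintype.card V : ℝ) ^ ((10 : ℝ) / 7)) ∧
    (fun n : ℕ => (eStar k n : ℝ)) =o[Filter.atTop] fun n : ℕ => (n : ℝ) ^ ((3 : ℝ) / 2) := by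
  refine ⟨fun V _ D hD => bound D (hD.mono hk), ?_⟩
  have h1 : (fun n : ℕ => (eStar k n : ℝ)) =O[Filter.atTop]
      fun n : ℕ => (n : ℝ) ^ ((10 : ℝ) / 7) := by
    refine Asymptotics.IsBigO.of_bound (10 ^ 4) (Filter.Eventually.of_forall fun n => ?_)
    rw [Real.norm_of_nonneg (by positivity), Real.norm_of_nonneg (by positivity)]
    exact eStar_le k n hk
  refine h1.trans_isLittleO ?_
  have h2 : (fun x : ℝ => x ^ ((10 : ℝ) / 7)) =o[Filter.atTop] fun x : ℝ => x ^ ((3 : ℝ) / 2) := by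
    refine Asymptotics.isLittleO_of_tendsto' ?_ ?_
    · filter_upwards [Filter.eventually_gt_atTop (0 : ℝ)] with x hx h
      exact absurd h (Real.rpow_pos_of_pos hx _).ne'
    · have h3 := tendsto_rpow_neg_atTop (y := 1 / 14) (by norm_num)
      refine h3.congr' ?_
      filter_upwards [Filter.eventually_gt_atTop (0 : ℝ)] with x hx
      rw [← Real.rpow_sub hx]
      norm_num
  exact h2.comp_tendsto tendsto_natCast_atTop_atTop

end Pool.Agent.Results.MP_d8337a_co.FourLocal
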